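import Pool.Agent.Lib_n3.MainFinal

/-!
# Every 3-connected `(n_3)` configuration with `n ≥ 11` is geometrically realizable

No hypothesis on topological realizability is needed.
-/

/-- Let `n ≥ 11` and let `I` be a combinatorial configuration `(n_3)` (every line has three points, every
point is on three lines, two points are on at most one common line) whose Levi graph is
3-connected.  Then there are `n` points `P i` and `n` lines `y = a j x + b j` of the real plane such that
`P i` is on the `j`-th line exactly when `i` and `j` are incident. -/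
theorem Pool.Agent.Results.MP_07e12a_co.GeometricRealization.result (n : ℕ) (hn : 11 ≤ n)
    (I : Fin n → Fin n → Prop)
    (h1 : ∀ p, {l | I p l}.ncard = 3)
    (h2 : ∀ l, {p | I p l}.ncard = 3)
    (h3 : ∀ p q, p ≠ q → {l | I p l ∧ I q l}.ncard ≤ 1)
    (hconn : ∀ S : Finset (Fin n ⊕ Fin n), S.card ≤ 2 →
      ((SimpleGraph.fromRel (fun u v : Fin n ⊕ Fin n =>
          ∃ p l, u = Sum.inl p ∧ v = Sum.inr l ∧ I p l)).induce
        {v : Fin n ⊕ Fin n | v ∉ S}).Connected) :
    ∃ a b : Fin n → ℝ, ∃ P : Fin n → ℝ × ℝ,
      (∀ i j, i ≠ j → P i ≠ P j) ∧ (∀ i j, i ≠ j → (a i, b i) ≠ (a j, b j)) ∧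
      ∀ i j, I i j ↔ (P i).2 = a j * (P i).1 + b j := by
  obtain ⟨a, b, P, h⟩ := N3.realizable n hn I h1 h2 h3 hconn
  refine ⟨a, b, P, ?_, ?_, h⟩
  · intro i j hij hP
    have : {l | I i l ∧ I j l} = {l | I i l} := by
      ext l
      simp only [Set.mem_setOf_eq, and_iff_left_iff_imp]
      intro hl
      rw [h] at hl ⊢
      rw [← hP]
      exact hl
    have h4 := h3 i j hij
    rw [this, h1 i] at h4
    omega
  · intro i j hij hab
    have ha : a i = a j := congrArg Prod.fst hab
    have hb : b i = b j := congrArg Prod.snd hab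
    have hset : {p | I p j} = {p | I p i} := by
      ext p
      simp only [Set.mem_setOf_eq]
      rw [h, h, ha, hb]
    -- two points on the line `i` are on both lines
    have h4 := h2 i
    obtain ⟨p, q, r, hpq, hpr, hqr, he⟩ := Set.ncard_eq_three.1 h4
    have hp : I p i := by
      have : p ∈ ({p | I p i} : Set (Fin n)) := by rw [he]; simp
      exact this
    have hq : I q i := by
      have : q ∈ ({p | I p i} : Set (Fin n)) := by rw [he]; simp
      exact this
    have hp' : I p j := by
      have : p ∈ ({p | I p j} : Set (Fin n)) := by rw [hset]; exact hp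
      exact this
    have hq' : I q j := by
      have : q ∈ ({p | I p j} : Set (Fin n)) := by rw [hset]; exact hq
      exact this
    have h5 := h3 p q hpq
    have h6 : 1 < {l | I p l ∧ I q l}.ncard := by
      rw [Set.one_lt_ncard]
      exact ⟨i, ⟨hp, hq⟩, j, ⟨hp', hq'⟩, hij⟩
    omega
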